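import Mathlib
import Pool.Agent.H86.SS.Top

/-!
MP_3a897b_co, Q1 for `m = 2` and `h` divisible by four: the complete list of the finite abelian
groups `G` with `φ_±(G, h) = 2` for every `h ≡ 4 (mod 8)`, and for every `h` divisible by four the
list of those of order larger than `9 h / 4`.

`signedSumset h A` is the `h`-fold signed sumset `h_± A` and `phi G h` is `φ_±(G, h)`, the least
size of a set `A` in `G` with `h_± A = G`.
-/

set_option autoImplicit false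

namespace Pool.Agent.Results.MP_3a897b_co.FourModEight

open Pool.Agent.H208.SS Pool.Agent.H86.SS

/-- (i) For `h ≡ 4 (mod 8)`: `φ_±(G, h) = 2` if and only if `G` is cyclic of order `n ≥ 2` with
`n ≤ 2 h + 1`, or `n` odd and `4 n ≤ 9 h`, or `n` odd, `3 ∤ h`, `n ≡ h (mod 3)` and `2 n ≤ 5 h`.
(ii) For `4 ∣ h`, `h ≥ 1` and `4 |G| > 9 h`: `φ_±(G, h) = 2` if and only if `G` is cyclic of odd
order, `3 ∤ h`, `|G| ≡ h (mod 3)` and `2 |G| ≤ 5 h`.
(iii) If `h = 2 ^ k m` with `m` odd, then `φ_±(ℤ/n, h) = 2` for every odd `n` with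
`2 ≤ n ≤ 2 h + m`.
(iv) If `4 ∣ h` and `3 ∤ h`, then `φ_±(ℤ/n, h) = 2` for every odd `n ≥ 2` with `n ≡ h (mod 3)`
and `2 n ≤ 5 h`.
(v) If `4 ∣ h`, `h ≥ 8` and `3 ∤ h`, then `(5 h - 6) / 2` is the largest order of a finite
abelian group `G` with `φ_±(G, h) = 2`; if `h ≡ 12 (mod 24)`, it is `9 h / 4`. -/
theorem result :
    (∀ h : ℕ, h % 8 = 4 → ∀ (G : Type) [AddCommGroup G] [Finite G],
      phi G h = 2 ↔ ∃ n : ℕ, 2 ≤ n ∧ (n ≤ 2 * h + 1 ∨ (Odd n ∧ 4 * n ≤ 9 * h) ∨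
        (Odd n ∧ ¬ 3 ∣ h ∧ n % 3 = h % 3 ∧ 2 * n ≤ 5 * h)) ∧ Nonempty (G ≃+ ZMod n)) ∧
    (∀ h : ℕ, 4 ∣ h → 1 ≤ h → ∀ (G : Type) [AddCommGroup G] [Finite G],
      9 * h < 4 * Nat.card G →
      (phi G h = 2 ↔ ¬ 3 ∣ h ∧ Odd (Nat.card G) ∧ Nat.card G % 3 = h % 3 ∧
        2 * Nat.card G ≤ 5 * h ∧ IsAddCyclic G)) ∧
    (∀ k m h n : ℕ, Odd m → h = 2 ^ k * m → Odd n → 2 ≤ n → n ≤ 2 * h + m →
      phi (ZMod n) h = 2) ∧
    (∀ h n : ℕ, 4 ∣ h → ¬ 3 ∣ h → Odd n → 2 ≤ n → n % 3 = h % 3 → 2 * n ≤ 5 * h →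
      phi (ZMod n) h = 2) ∧
    (∀ h : ℕ, 4 ∣ h → 8 ≤ h → ¬ 3 ∣ h →
      IsGreatest {N : ℕ | ∃ (G : Type) (_ : AddCommGroup G) (_ : Finite G),
        Nat.card G = N ∧ phi G h = 2} ((5 * h - 6) / 2)) ∧
    (∀ h : ℕ, h % 24 = 12 →
      IsGreatest {N : ℕ | ∃ (G : Type) (_ : AddCommGroup G) (_ : Finite G),
        Nat.card G = N ∧ phi G h = 2} (9 * h / 4)) := by
  refine ⟨?_, ?_, ?_, ?_, ?_, ?_⟩
  · intro h h8 G _ _
    exact four_mod_eight h h8 G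
  · intro h h4 h0 G _ _ hbig
    exact top_iff h h4 h0 G hbig
  · intro k m h n hm hh hn h2 hle
    exact phi_pow rfl (Nat.odd_iff.1 hm) hh h2 (Nat.odd_iff.1 hn) hle _ (AddEquiv.refl _)
  · intro h n h4 h3 hn h2 hn3 hle
    exact phi_one_five h4 h3 (by omega) h2 (Nat.odd_iff.1 hn) hn3 hle _ (AddEquiv.refl _)
  · intro h h4 h8 h3
    constructor
    · have : NeZero ((5 * h - 6) / 2) := ⟨by omega⟩
      refine ⟨ZMod ((5 * h - 6) / 2), inferInstance, inferInstance, ?_, ?_⟩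
      · rw [Nat.card_zmod]
      · exact phi_one_five h4 h3 (by omega) (by omega) (by omega) (by omega) (by omega) _
          (AddEquiv.refl _)
    · rintro N ⟨G, _, _, rfl, hphi⟩
      have := bound4 h4 h8 hphi
      omega
  · intro h h24
    have h4 : 4 ∣ h := by omega
    constructor
    · have : NeZero (9 * h / 4) := ⟨by omega⟩
      refine ⟨ZMod (9 * h / 4), inferInstance, inferInstance, ?_, ?_⟩
      · rw [Nat.card_zmod]
      · obtain ⟨m, hm⟩ : ∃ m, h = 4 * m := ⟨h / 4, by omega⟩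
        exact phi_pow (k := 2) (K := 4) (m := m) (by norm_num) (by omega) hm (by omega)
          (by omega) (by omega) _ (AddEquiv.refl _)
    · rintro N ⟨G, _, _, rfl, hphi⟩
      by_contra hcon
      obtain ⟨h1, -, -, -⟩ := top_range h4 (by omega) hphi (by omega)
      omega

end Pool.Agent.Results.MP_3a897b_co.FourModEight
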